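import Pool.Agent.W516.KU.Defs

/-! The case of a root of length two: all root vectors are in the Lie algebra. -/

namespace Pool.Agent.W333.KU.UA

open Module Pool.Agent.W516.K3 Pool.Agent.W516.KU

section Gen

variable {F T : Type} [Field F] [AddCommGroup T] [Module F T]

theorem xx_apply (b : T →ₗ[F] T →ₗ[F] F) (J : Module.End F T) (u v w : T) :
    xx b J u v w = b v w • u - b u w • v + (b (J v) w • J u - b (J u) w • J v) := by
  simp [xx, wdg]

theorem xx_add_right (b : T →ₗ[F] T →ₗ[F] F) (J : Module.End F T) (u v v' : T) :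
    xx b J u (v + v') = xx b J u v + xx b J u v' := by
  ext w
  simp only [LinearMap.add_apply, xx_apply, map_add]
  module

theorem xx_smul_right (b : T →ₗ[F] T →ₗ[F] F) (J : Module.End F T) (u v : T) (c : F) :
    xx b J u (c • v) = c • xx b J u v := by
  ext w
  simp only [LinearMap.smul_apply, xx_apply, map_smul, smul_eq_mul]
  module

theorem xx_add_left (b : T →ₗ[F] T →ₗ[F] F) (J : Module.End F T) (u v v' : T) :
    xx b J (v + v') u = xx b J v u + xx b J v' u := by
  ext w
  simp only [LinearMap.add_apply, xx_apply, map_add]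
  module

theorem xx_smul_left (b : T →ₗ[F] T →ₗ[F] F) (J : Module.End F T) (u v : T) (c : F) :
    xx b J (c • v) u = c • xx b J v u := by
  ext w
  simp only [LinearMap.smul_apply, xx_apply, map_smul, smul_eq_mul]
  module

theorem herm_JJ {b : T →ₗ[F] T →ₗ[F] F} {J : Module.End F T} (h : Herm b J) (u : T) :
    J (J u) = -u := by
  have h1 := LinearMap.congr_fun h.sq u
  simpa using h1

theorem herm_bJ {b : T →ₗ[F] T →ₗ[F] F} {J : Module.End F T} (h : Herm b J) (u v : T) :
    b (J u) v = -b u (J v) := by
  have h1 := h.isom (J u) v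
  rw [herm_JJ h] at h1
  simp only [map_neg, LinearMap.neg_apply] at h1
  rw [← h1]

theorem xx_J_left {b : T →ₗ[F] T →ₗ[F] F} {J : Module.End F T} (h : Herm b J) (u v : T) :
    xx b J (J u) v = -xx b J u (J v) := by
  ext w
  simp only [LinearMap.neg_apply, xx_apply, herm_JJ h, map_neg, LinearMap.neg_apply]
  module

theorem comm_xx {b : T →ₗ[F] T →ₗ[F] F} {J a : Module.End F T}
    (hs : ∀ u v, b (a u) v + b u (a v) = 0) (hc : a * J = J * a) (u v : T) :
    a * xx b J u v - xx b J u v * a = xx b J (a u) v + xx b J u (a v) := by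
  have hc' : ∀ u, a (J u) = J (a u) := fun u => LinearMap.congr_fun hc u
  have hs' : ∀ u v, b u (a v) = -b (a u) v := fun u v => by
    have := hs u v
    linear_combination this
  ext w
  simp only [LinearMap.sub_apply, Module.End.mul_apply, LinearMap.add_apply, xx_apply, map_add,
    map_sub, map_smul, hc', hs']
  module

end Gen

section Real

variable {T : Type} [AddCommGroup T] [Module ℝ T]

theorem mem_T0 {b : T →ₗ[ℝ] T →ₗ[ℝ] ℝ} {J : Module.End ℝ T} {e f t : T} :
    t ∈ T0 b J e f ↔ b e t = 0 ∧ b f t = 0 ∧ b (J e) t = 0 ∧ b (J f) t = 0 := by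
  simp only [T0, Submodule.mem_inf, LinearMap.mem_ker]
  tauto

end Real

theorem T_UA (hGR : Pool.Agent.W516.KU.S_GR) : Pool.Agent.W516.KU.S_UA := by
  intro T _ _ _ b J g hg hdim e f hef hh hE hF
  have H := hg.herm
  have JJ := herm_JJ H
  have bJ := herm_bJ H
  -- values of the form on the plane
  have ee := hef.ee
  have ff := hef.ff
  have ef := hef.ef
  have eJf := hef.eJf
  have fe : b f e = 1 := by rw [H.symm]; exact ef
  have b_self_J : ∀ u, b u (J u) = 0 := fun u => by
    have h1 := bJ u u
    have h2 := H.symm (J u) u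
    linarith
  have J_self_b : ∀ u, b (J u) u = 0 := fun u => by rw [H.symm]; exact b_self_J u
  have Jef : b (J e) f = 0 := by rw [bJ, eJf, neg_zero]
  have Jfe : b (J f) e = 0 := by rw [H.symm]; exact eJf
  have fJe : b f (J e) = 0 := by rw [H.symm]; exact Jef
  have JeJe : b (J e) (J e) = 0 := by rw [H.isom, ee]
  have JfJf : b (J f) (J f) = 0 := by rw [H.isom, ff]
  have JeJf : b (J e) (J f) = 1 := by rw [H.isom, ef]
  have JfJe : b (J f) (J e) = 1 := by rw [H.isom, fe]
  -- stability of T0 under J
  have hT0J : ∀ t ∈ T0 b J e f, J t ∈ T0 b J e f := by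
    intro t ht
    obtain ⟨h1, h2, h3, h4⟩ := mem_T0.mp ht
    refine mem_T0.mpr ⟨?_, ?_, ?_, ?_⟩
    · have := bJ e t; linarith
    · have := bJ f t; linarith
    · rw [H.isom, h1]
    · rw [H.isom, h2]
  -- the submodule D
  let D : Submodule ℝ T :=
    { carrier := {t | t ∈ T0 b J e f ∧ xx b J e t ∈ g}
      zero_mem' := by
        refine ⟨Submodule.zero_mem _, ?_⟩
        have h1 : xx b J e 0 = 0 := by
          have := xx_smul_right b J e (0 : T) 0
          simpa using this
        rw [h1]; exact g.zero_mem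
      add_mem' := by
        intro s t hs ht
        refine ⟨Submodule.add_mem _ hs.1 ht.1, ?_⟩
        rw [xx_add_right]; exact g.add_mem hs.2 ht.2
      smul_mem' := by
        intro c t ht
        refine ⟨Submodule.smul_mem _ c ht.1, ?_⟩
        rw [xx_smul_right]; exact g.smul_mem c ht.2 }
  have mD : ∀ t, t ∈ D ↔ t ∈ T0 b J e f ∧ xx b J e t ∈ g := fun t => Iff.rfl
  have comm_of : ∀ x ∈ g, ∀ u v, x * xx b J u v - xx b J u v * x =
      xx b J (x u) v + xx b J u (x v) := fun x hx u v =>
    comm_xx (hg.skew x hx) (hg.commJ x hx) u v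
  -- anisotropy of T0
  have aniso : ∀ t ∈ T0 b J e f, t ≠ 0 → b t t ≠ 0 := by
    intro t ht ht0 htt
    obtain ⟨h1, h2, h3, h4⟩ := mem_T0.mp ht
    have te : b t e = 0 := by rw [H.symm]; exact h1
    have tJe : b t (J e) = 0 := by rw [H.symm]; exact h3
    have eJe : b e (J e) = 0 := b_self_J e
    have Jee : b (J e) e = 0 := J_self_b e
    have li : LinearIndependent ℝ ![e, J e, t] := by
      rw [Fintype.linearIndependent_iff]
      intro c hc
      simp only [Fin.sum_univ_three, Matrix.cons_val_zero, Matrix.cons_val_one,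
        Matrix.cons_val] at hc
      have c1 := congrArg (b f) hc
      have c2 := congrArg (b (J f)) hc
      simp only [map_add, map_smul, smul_eq_mul, map_zero, fe, fJe, Jfe, JfJe, h2, h4] at c1 c2
      have d1 : c 0 = 0 := by linarith
      have d2 : c 1 = 0 := by linarith
      rw [d1, d2, zero_smul, zero_smul, zero_add, zero_add] at hc
      have d3 : c 2 = 0 := (smul_eq_zero.mp hc).resolve_right ht0
      intro i
      fin_cases i
      · exact d1
      · exact d2
      · exact d3
    have hw := hg.witt (Submodule.span ℝ (Set.range ![e, J e, t])) (by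
      intro u hu v hv
      have hiso : ∀ i j, b (![e, J e, t] i) (![e, J e, t] j) = 0 := by
        intro i j
        fin_cases i <;> fin_cases j <;>
          simp [ee, eJe, h1, Jee, JeJe, h3, te, tJe, htt]
      have h5 : ∀ j, Submodule.span ℝ (Set.range ![e, J e, t]) ≤
          LinearMap.ker (b (![e, J e, t] j)) := by
        intro j
        refine Submodule.span_le.mpr ?_
        rintro y ⟨i, rfl⟩
        exact hiso j i
      have h6 : Submodule.span ℝ (Set.range ![e, J e, t]) ≤ LinearMap.ker (b v) := by
        refine Submodule.span_le.mpr ?_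
        rintro y ⟨i, rfl⟩
        show b v _ = 0
        rw [H.symm]
        exact h5 i hv
      have h7 : b v u = 0 := h6 hu
      rw [H.symm]
      exact h7)
    rw [finrank_span_eq_card li] at hw
    simp at hw
  -- (1)
  have hY : ∀ t ∈ T0 b J e f, xx b J e t ∈ g → xx b J f (J t) ∈ g := by
    intro t ht htg
    obtain ⟨h1, h2, h3, h4⟩ := mem_T0.mp ht
    have h5 := comm_of _ hF e t
    have h6 : xx b J f (J f) e = (-2 : ℝ) • J f := by
      rw [xx_apply, JJ, Jfe, fe, map_neg, LinearMap.neg_apply, fe]
      module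
    have h7 : xx b J f (J f) t = 0 := by
      rw [xx_apply, JJ, h4, h2, map_neg, LinearMap.neg_apply, h2]
      module
    have h8 : xx b J e (0 : T) = 0 := by
      have := xx_smul_right b J e (0 : T) 0
      simpa using this
    rw [h6, h7, h8, add_zero, xx_smul_left, xx_J_left H] at h5
    have h9 := hg.bracket _ hF _ htg
    rw [h5] at h9
    have h10 := g.smul_mem (1 / 2 : ℝ) h9
    have h11 : (1 / 2 : ℝ) • (-2 : ℝ) • -xx b J f (J t) = xx b J f (J t) := by module
    rwa [h11] at h10
  have hX : ∀ s ∈ T0 b J e f, xx b J f s ∈ g → xx b J e (J s) ∈ g := by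
    intro s hs hsg
    obtain ⟨h1, h2, h3, h4⟩ := mem_T0.mp hs
    have h5 := comm_of _ hE f s
    have h6 : xx b J e (J e) f = (-2 : ℝ) • J e := by
      rw [xx_apply, JJ, Jef, ef, map_neg, LinearMap.neg_apply, ef]
      module
    have h7 : xx b J e (J e) s = 0 := by
      rw [xx_apply, JJ, h3, h1, map_neg, LinearMap.neg_apply, h1]
      module
    have h8 : xx b J f (0 : T) = 0 := by
      have := xx_smul_right b J f (0 : T) 0
      simpa using this
    rw [h6, h7, h8, add_zero, xx_smul_left, xx_J_left H] at h5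
    have h9 := hg.bracket _ hE _ hsg
    rw [h5] at h9
    have h10 := g.smul_mem (1 / 2 : ℝ) h9
    have h11 : (1 / 2 : ℝ) • (-2 : ℝ) • -xx b J e (J s) = xx b J e (J s) := by module
    rwa [h11] at h10
  -- (2)
  have hDJ : ∀ t ∈ D, J t ∈ D := by
    intro t ht
    obtain ⟨htT, htg⟩ := (mD t).mp ht
    by_cases ht0 : t = 0
    · rw [ht0, map_zero]; exact D.zero_mem
    have htt := aniso t htT ht0
    obtain ⟨h1, h2, h3, h4⟩ := mem_T0.mp htT
    have hJtT := hT0J t htT
    obtain ⟨j1, j2, j3, j4⟩ := mem_T0.mp hJtT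
    have hYg := hY t htT htg
    set z := xx b J e t * xx b J f (J t) - xx b J f (J t) * xx b J e t with hz
    have hzg : z ∈ g := hg.bracket _ htg _ hYg
    have te : b t e = 0 := by rw [H.symm]; exact h1
    have tf : b t f = 0 := by rw [H.symm]; exact h2
    have Jte : b (J t) e = 0 := by rw [H.symm]; exact j1
    have Jtf : b (J t) f = 0 := by rw [H.symm]; exact j2
    have Xe : xx b J e t e = 0 := by
      rw [xx_apply, te, ee, Jte, J_self_b]; module
    have Xf : xx b J e t f = -t := by
      rw [xx_apply, tf, ef, Jtf, Jef]; module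
    have XJt : xx b J e t (J t) = b t t • J e := by
      rw [xx_apply, b_self_J, j1, H.isom, j3]; module
    have XJf : xx b J e t (J f) = -(J t) := by
      rw [xx_apply, eJf, JeJf]
      have e1 : b t (J f) = 0 := by rw [H.symm]; exact h4
      have e2 : b (J t) (J f) = 0 := by rw [H.symm]; exact j4
      rw [e1, e2]; module
    have Xt : xx b J e t t = b t t • e := by
      rw [xx_apply, h1, J_self_b, h3]; module
    have Ye : xx b J f (J t) e = -(J t) := by
      rw [xx_apply, Jte, fe, JJ, map_neg, LinearMap.neg_apply, te, Jfe]; module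
    have Yt : xx b J f (J t) t = -(b t t) • J f := by
      rw [xx_apply, J_self_b, h2, JJ, map_neg, LinearMap.neg_apply, h4]; module
    have ze : z e = -(b t t) • J e := by
      rw [hz, LinearMap.sub_apply, Module.End.mul_apply, Module.End.mul_apply, Xe, Ye, map_neg,
        XJt, map_zero]
      module
    have zt : z t = (2 * b t t) • J t := by
      rw [hz, LinearMap.sub_apply, Module.End.mul_apply, Module.End.mul_apply, Xt, Yt, map_smul,
        map_smul, XJf, Ye]
      module
    have h5 := comm_of z hzg e t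
    rw [ze, zt, xx_smul_left, xx_smul_right, xx_J_left H] at h5
    have h9 := hg.bracket _ hzg _ htg
    rw [h5] at h9
    have h10 := g.smul_mem (1 / (3 * b t t) : ℝ) h9
    have h11 : (1 / (3 * b t t) : ℝ) • (-(b t t) • -xx b J e (J t) + (2 * b t t) • xx b J e (J t))
        = xx b J e (J t) := by
      have e1 : -(b t t) • -xx b J e (J t) + (2 * b t t) • xx b J e (J t) =
        (3 * b t t) • xx b J e (J t) := by module
      rw [e1, smul_smul, one_div, inv_mul_cancel₀ (by positivity), one_smul]
    rw [h11] at h10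
    exact (mD _).mpr ⟨hJtT, h10⟩
  have hYD : ∀ t ∈ D, xx b J f t ∈ g := by
    intro t ht
    have h1 := hDJ t ht
    have h2 := hY (J t) h1.1 h1.2
    rw [JJ] at h2
    have h3 : xx b J f (-t) = -xx b J f t := by
      have := xx_smul_right b J f t (-1)
      simpa using this
    rw [h3] at h2
    exact (Submodule.neg_mem_iff _).mp h2
  have hDY : ∀ s ∈ T0 b J e f, xx b J f s ∈ g → s ∈ D := by
    intro s hs hsg
    have h1 : J s ∈ D := (mD _).mpr ⟨hT0J s hs, hX s hs hsg⟩
    have h2 := hDJ _ h1
    rw [JJ] at h2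
    exact (Submodule.neg_mem_iff _).mp h2
  -- (3)
  let P : Submodule ℝ T := Submodule.span ℝ {e, J e, f, J f}
  set U := P ⊔ D with hU
  have heU : e ∈ U := Submodule.mem_sup_left (Submodule.subset_span (by simp))
  have hJeU : J e ∈ U := Submodule.mem_sup_left (Submodule.subset_span (by simp))
  have hfU : f ∈ U := Submodule.mem_sup_left (Submodule.subset_span (by simp))
  have hJfU : J f ∈ U := Submodule.mem_sup_left (Submodule.subset_span (by simp))
  have hDU : ∀ w ∈ D, w ∈ U := fun w hw => Submodule.mem_sup_right hw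
  have hstab : ∀ x ∈ g, ∀ u ∈ U, x u ∈ U := by
    intro x hx
    obtain ⟨t, s, α, β, z, ht, hs, htg, hsg, -, -, hzg, hzh, hxe⟩ :=
      hGR T b J g hg e f hef hh x hx
    have htD : t ∈ D := (mD t).mpr ⟨ht, htg⟩
    have hsD : s ∈ D := hDY s hs hsg
    -- z on the generators
    have hzh' : ∀ w, z (xx b J e f w) = xx b J e f (z w) := fun w => LinearMap.congr_fun hzh w
    have hzJ : ∀ w, z (J w) = J (z w) := fun w => LinearMap.congr_fun (hg.commJ z hzg) w
    have he1 : xx b J e f e = e := by
      rw [xx_apply, fe, ee, Jfe, J_self_b]; module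
    have hf1 : xx b J e f f = -f := by
      rw [xx_apply, ff, ef, J_self_b, Jef]; module
    have ze : ∃ a c : ℝ, z e = a • e + c • J e := by
      have h1 : xx b J e f (z e) = z e := by rw [← hzh', he1]
      have h2 := congrArg (b e) h1
      have h3 := congrArg (b (J e)) h1
      rw [xx_apply] at h1 h2 h3
      simp only [map_add, map_sub, map_smul, smul_eq_mul, ee, ef, b_self_J, eJf, J_self_b, Jef,
        JeJe, JeJf] at h2 h3
      have h4 : b e (z e) = 0 := by linarith
      have h5 : b (J e) (z e) = 0 := by linarith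
      refine ⟨b f (z e), b (J f) (z e), ?_⟩
      rw [h4, h5, zero_smul, zero_smul, sub_zero, sub_zero] at h1
      exact h1.symm
    have zf : ∃ a c : ℝ, z f = a • f + c • J f := by
      have h1 : xx b J e f (z f) = -z f := by rw [← hzh', hf1, map_neg]
      have h2 := congrArg (b f) h1
      have h3 := congrArg (b (J f)) h1
      rw [xx_apply] at h1 h2 h3
      simp only [map_add, map_sub, map_smul, smul_eq_mul, map_neg, fe, ff, b_self_J, fJe, J_self_b,
        Jfe, JfJe, JfJf] at h2 h3
      have h4 : b f (z f) = 0 := by linarith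
      have h5 : b (J f) (z f) = 0 := by linarith
      refine ⟨b e (z f), b (J e) (z f), ?_⟩
      rw [h4, h5, zero_smul, zero_smul] at h1
      have h7 : ∀ (p q : ℝ) (y : T), 0 - p • f + (0 - q • J f) = -y → y = p • f + q • J f := by
        intro p q y h
        rw [← neg_neg y, ← h]
        module
      exact h7 _ _ _ h1
    obtain ⟨a, c, hze⟩ := ze
    obtain ⟨a', c', hzf⟩ := zf
    have zD : ∀ w ∈ D, z w ∈ D := by
      intro w hw
      obtain ⟨hwT, hwg⟩ := (mD w).mp hw
      obtain ⟨h1, h2, h3, h4⟩ := mem_T0.mp hwT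
      have sk := fun u => hg.skew z hzg u w
      refine (mD _).mpr ⟨mem_T0.mpr ⟨?_, ?_, ?_, ?_⟩, ?_⟩
      · have := sk e
        rw [hze] at this
        simp only [map_add, map_smul, LinearMap.add_apply, LinearMap.smul_apply, smul_eq_mul, h1,
          h3] at this
        linarith
      · have := sk f
        rw [hzf] at this
        simp only [map_add, map_smul, LinearMap.add_apply, LinearMap.smul_apply, smul_eq_mul, h2,
          h4] at this
        linarith
      · have := sk (J e)
        rw [hzJ, hze] at this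
        simp only [map_add, map_smul, JJ, map_neg, LinearMap.add_apply, LinearMap.smul_apply,
          LinearMap.neg_apply, smul_eq_mul, h1, h3] at this
        linarith
      · have := sk (J f)
        rw [hzJ, hzf] at this
        simp only [map_add, map_smul, JJ, map_neg, LinearMap.add_apply, LinearMap.smul_apply,
          LinearMap.neg_apply, smul_eq_mul, h2, h4] at this
        linarith
      · have h5 := comm_of z hzg e w
        rw [hze, xx_add_left, xx_smul_left, xx_smul_left, xx_J_left H] at h5
        have h6 := hg.bracket _ hzg _ hwg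
        rw [h5] at h6
        have h7 := (hDJ w hw).2
        have h8 := g.sub_mem (g.sub_mem h6 (g.smul_mem a hwg)) (g.smul_mem (-c) h7)
        have h9 : a • xx b J e w + c • -xx b J e (J w) + xx b J e (z w) - a • xx b J e w -
          (-c) • xx b J e (J w) = xx b J e (z w) := by module
        rwa [h9] at h8
    have hzU : ∀ u ∈ U, z u ∈ U := by
      have h1 : U ≤ U.comap z := by
        rw [hU]
        refine sup_le ?_ ?_
        · refine Submodule.span_le.mpr ?_
          rintro y (rfl | rfl | rfl | rfl)
          · show z y ∈ U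
            rw [hze]; exact U.add_mem (U.smul_mem _ heU) (U.smul_mem _ hJeU)
          · show z (J e) ∈ U
            rw [hzJ, hze, map_add, map_smul, map_smul, JJ]
            exact U.add_mem (U.smul_mem _ hJeU) (U.smul_mem _ (U.neg_mem heU))
          · show z y ∈ U
            rw [hzf]; exact U.add_mem (U.smul_mem _ hfU) (U.smul_mem _ hJfU)
          · show z (J f) ∈ U
            rw [hzJ, hzf, map_add, map_smul, map_smul, JJ]
            exact U.add_mem (U.smul_mem _ hJfU) (U.smul_mem _ (U.neg_mem hfU))
        · intro w hw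
          exact hDU _ (zD w hw)
      exact h1
    intro u hu
    have hxxU : ∀ u v w : T, u ∈ U → v ∈ U → J u ∈ U → J v ∈ U → xx b J u v w ∈ U := by
      intro u v w hu hv hJu hJv
      rw [xx_apply]
      exact U.add_mem (U.sub_mem (U.smul_mem _ hu) (U.smul_mem _ hv))
        (U.sub_mem (U.smul_mem _ hJu) (U.smul_mem _ hJv))
    rw [hxe]
    simp only [LinearMap.add_apply, LinearMap.smul_apply]
    refine U.add_mem (U.add_mem (U.add_mem (U.add_mem (U.smul_mem _ ?_) ?_) ?_) ?_)
      (U.smul_mem _ ?_)
    · exact hxxU _ _ _ heU hJeU hJeU (by rw [JJ]; exact U.neg_mem heU)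
    · exact hxxU _ _ _ heU (hDU _ htD) hJeU (hDU _ (hDJ _ htD))
    · exact hzU u hu
    · exact hxxU _ _ _ hfU (hDU _ hsD) hJfU (hDU _ (hDJ _ hsD))
    · exact hxxU _ _ _ hfU hJfU hJfU (by rw [JJ]; exact U.neg_mem hfU)
  have hUtop : U = ⊤ := by
    rcases hg.irr U hstab with h | h
    · exfalso
      rw [h] at heU
      have : e = 0 := (Submodule.mem_bot ℝ).mp heU
      rw [this] at ef
      simp at ef
    · exact h
  have key : ∀ t ∈ T0 b J e f, t ∈ D := by
    intro t ht
    have htU : t ∈ P ⊔ D := by rw [← hU, hUtop]; exact Submodule.mem_top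
    obtain ⟨p, hp, w, hw, hpw⟩ := Submodule.mem_sup.mp htU
    have hpT : p ∈ T0 b J e f := by
      have : p = t - w := by rw [← hpw]; abel
      rw [this]; exact Submodule.sub_mem _ ht hw.1
    obtain ⟨h1, h2, h3, h4⟩ := mem_T0.mp hpT
    have hp' : ∃ a1 a2 a3 a4 : ℝ, p = a1 • e + a2 • J e + a3 • f + a4 • J f := by
      have hp2 := hp
      simp only [P, Submodule.mem_span_insert, Submodule.mem_span_singleton] at hp2
      obtain ⟨a1, y1, ⟨a2, y2, ⟨a3, y3, ⟨a4, rfl⟩, rfl⟩, rfl⟩, rfl⟩ := hp2
      exact ⟨a1, a2, a3, a4, by abel⟩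
    obtain ⟨a1, a2, a3, a4, hpe⟩ := hp'
    rw [hpe] at h1 h2 h3 h4
    simp only [map_add, map_smul, smul_eq_mul, ee, ef, b_self_J, eJf, J_self_b, Jef, JeJe, JeJf,
      fe, ff, fJe, Jfe, JfJe, JfJf] at h1 h2 h3 h4
    have e1 : a1 = 0 := by linarith
    have e2 : a2 = 0 := by linarith
    have e3 : a3 = 0 := by linarith
    have e4 : a4 = 0 := by linarith
    have hp0 : p = 0 := by rw [hpe, e1, e2, e3, e4]; simp
    rw [hp0, zero_add] at hpw
    rw [← hpw]; exact hw
  intro t ht
  have h1 := key t ht
  exact ⟨h1.2, hYD t h1⟩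

end Pool.Agent.W333.KU.UA
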